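import Pool.Agent.Helper96.QuinticFinal

set_option autoImplicit false

/-!
Shifting a polynomial with distinct rational roots: an explicit quintic (and all its images under
rational affine changes of the variable and real scalings) none of whose nonzero shifts has more
than three rational roots.
-/

namespace Pool.Agent.Results.MP_59b56e_nt.ExplicitQuintic

open Polynomial
open Pool.Agent.Helper96 (quint dd1 dd2 dd3 no_shift)

/-- `p` has degree exactly `n` and `n` distinct rational roots. -/
def HasDistinctRationalRoots (p : ℝ[X]) (n : ℕ) : Prop :=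
  p.natDegree = n ∧ ∃ r : Fin n → ℚ, Function.Injective r ∧ ∀ i, p.eval (r i : ℝ) = 0

/-- `c · P(a x + b)` for `P = x (x² - 4) (x² - 9)`. -/
noncomputable def quintic (c : ℝ) (a b : ℚ) : ℝ[X] :=
  C c * (X * (X ^ 2 - 4) * (X ^ 2 - 9) : ℝ[X]).comp (C (a : ℝ) * X + C (b : ℝ))

private theorem no_root (a : ℚ) : 5 * a ^ 4 - 39 * a ^ 2 + 36 ≠ 0 := by
  intro h
  have h1 : ((10 * a ^ 2 - 39) / 3) ^ 2 = 89 := by
    field_simp
    linear_combination 20 * h
  have h2 : Irrational (√89) := by
    have := Nat.Prime.irrational_sqrt (p := 89) (by norm_num)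
    exact_mod_cast this
  apply h2
  refine ⟨|(10 * a ^ 2 - 39) / 3|, ?_⟩
  have h3 : ((((10 * a ^ 2 - 39) / 3 : ℚ) : ℝ)) ^ 2 = 89 := by exact_mod_cast h1
  rw [← h3, Real.sqrt_sq_eq_abs, Rat.cast_abs]

private theorem not_double {a b c d t : ℚ} (hab : a ≠ b) (hac : a ≠ c) (had : a ≠ d) (hbc : b ≠ c)
    (hbd : b ≠ d) (hcd : c ≠ d) (ha : quint a = t) (hb : quint b = t) (hc : quint c = t)
    (hd : quint d = t) : a ≠ -(a + b + c + d) := by
  intro h
  have h1 := dd1 hab ha hb
  have h2 := dd2 hab hac hbc ha hb hc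
  have h3 := dd3 hab hac had hbc hbd hcd ha hb hc hd
  apply no_root a
  linear_combination h1 + (a - b) * h2 + (a - b) * (a - c) * h3 +
    (a - b) * (a - c) * (a - d) * h

private theorem four {a b c d t : ℚ} (hab : a ≠ b) (hac : a ≠ c) (had : a ≠ d) (hbc : b ≠ c)
    (hbd : b ≠ d) (hcd : c ≠ d) (ha : quint a = t) (hb : quint b = t) (hc : quint c = t)
    (hd : quint d = t) : t = 0 := by
  have h1 := dd1 hab ha hb
  have h2 := dd2 hab hac hbc ha hb hc
  have h3 := dd3 hab hac had hbc hbd hcd ha hb hc hd
  have he : quint (-(a + b + c + d)) = t := by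
    have ha' := ha
    unfold quint at ha' ⊢
    linear_combination ha' + (-(a + b + c + d) - a) * h1 +
      (-(a + b + c + d) - a) * (-(a + b + c + d) - b) * h2 +
      (-(a + b + c + d) - a) * (-(a + b + c + d) - b) * (-(a + b + c + d) - c) * h3
  have n1 := not_double hab hac had hbc hbd hcd ha hb hc hd
  have n2 : b ≠ -(a + b + c + d) := by
    have := not_double hab.symm hbc hbd hac had hcd hb ha hc hd
    rwa [show b + a + c + d = a + b + c + d by ring] at this
  have n3 : c ≠ -(a + b + c + d) := by
    have := not_double hac.symm hbc.symm hcd hab had hbd hc ha hb hd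
    rwa [show c + a + b + d = a + b + c + d by ring] at this
  have n4 : d ≠ -(a + b + c + d) := by
    have := not_double had.symm hbd.symm hcd.symm hab hac hbc hd ha hb hc
    rwa [show d + a + b + c = a + b + c + d by ring] at this
  exact no_shift hab hac had n1 hbc hbd n2 hcd n3 n4 ha hb hc hd he

private theorem eval_quintic (c : ℝ) (a b x : ℚ) :
    (quintic c a b).eval (x : ℝ) = c * ((quint (a * x + b) : ℚ) : ℝ) := by
  unfold quintic quint
  simp only [eval_mul, eval_C, eval_comp, eval_add, eval_X, eval_sub, eval_pow, eval_ofNat]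
  push_cast
  ring

private theorem degree_quintic {c : ℝ} (hc : c ≠ 0) {a : ℚ} (ha : a ≠ 0) (b : ℚ) :
    (quintic c a b).natDegree = 5 := by
  have h1 : (X * (X ^ 2 - 4) * (X ^ 2 - 9) : ℝ[X]).natDegree = 5 := by
    compute_degree!
  have h2 : (C (a : ℝ) * X + C (b : ℝ)).natDegree = 1 :=
    natDegree_linear (by exact_mod_cast ha)
  rw [quintic, natDegree_C_mul hc, natDegree_comp, h1, h2]

/-- The quintic `q = c · P(a x + b)`, `P = x (x² - 4) (x² - 9)`, `c ≠ 0` real, `a ≠ 0` and `b`
rational, has five distinct rational roots; for every real `t ≠ 0` the polynomial `q - t` has at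
most three distinct rational roots, in particular it does not have five. -/
theorem result (c : ℝ) (hc : c ≠ 0) (a b : ℚ) (ha : a ≠ 0) :
    HasDistinctRationalRoots (quintic c a b) 5 ∧
      ∀ t : ℝ, t ≠ 0 →
        ¬ HasDistinctRationalRoots (quintic c a b - C t) 5 ∧
        ∀ s : Finset ℚ, (∀ x ∈ s, (quintic c a b - C t).eval (x : ℝ) = 0) → s.card ≤ 3 := by
  have key : ∀ t : ℝ, t ≠ 0 → ∀ s : Finset ℚ,
      (∀ x ∈ s, (quintic c a b - C t).eval (x : ℝ) = 0) → s.card ≤ 3 := by
    intro t ht s hs
    by_contra hcard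
    obtain ⟨s', hs's, hs'⟩ := Finset.exists_subset_card_eq (show 4 ≤ s.card by omega)
    set x : Fin 4 → ℚ := fun i => s'.orderEmbOfFin hs' i with hx
    have hinj : Function.Injective x := (s'.orderEmbOfFin hs').injective
    have hval : ∀ i, c * ((quint (a * x i + b) : ℚ) : ℝ) = t := by
      intro i
      have h := hs (x i) (hs's (Finset.orderEmbOfFin_mem s' hs' i))
      rw [eval_sub, eval_C, eval_quintic] at h
      linarith
    have hq : ∀ i, quint (a * x i + b) = quint (a * x 0 + b) := by
      intro i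
      have h := (hval i).trans (hval 0).symm
      exact_mod_cast mul_left_cancel₀ hc h
    have hne : ∀ i j : Fin 4, i ≠ j → a * x i + b ≠ a * x j + b := by
      intro i j hij h
      exact hij (hinj (mul_left_cancel₀ ha (add_right_cancel h)))
    have h0 := four (hne 0 1 (by decide)) (hne 0 2 (by decide)) (hne 0 3 (by decide))
      (hne 1 2 (by decide)) (hne 1 3 (by decide)) (hne 2 3 (by decide)) (hq 0) (hq 1) (hq 2)
      (hq 3)
    apply ht
    rw [← hval 0, h0]
    simp
  refine ⟨⟨degree_quintic hc ha b, ?_⟩, fun t ht => ⟨?_, key t ht⟩⟩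
  · refine ⟨fun i => (![0, 2, -2, 3, -3] i - b) / a, ?_, ?_⟩
    · intro i j h
      have h1 : (![0, 2, -2, 3, -3] : Fin 5 → ℚ) i = (![0, 2, -2, 3, -3] : Fin 5 → ℚ) j := by
        have h' : ((![0, 2, -2, 3, -3] : Fin 5 → ℚ) i - b) / a =
            ((![0, 2, -2, 3, -3] : Fin 5 → ℚ) j - b) / a := h
        rw [div_left_inj' ha] at h'
        linarith
      revert h1
      fin_cases i <;> fin_cases j <;> norm_num
    · intro i
      rw [eval_quintic, mul_div_cancel₀ _ ha, sub_add_cancel]
      fin_cases i <;> simp [quint] <;> norm_num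
  · rintro ⟨-, r, hr, h⟩
    have := key t ht (Finset.univ.image r) (by
      intro x hx
      obtain ⟨i, -, rfl⟩ := Finset.mem_image.mp hx
      exact h i)
    rw [Finset.card_image_of_injective _ hr] at this
    simp at this

end Pool.Agent.Results.MP_59b56e_nt.ExplicitQuintic
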